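import Pool.Agent.U180.NG.Stm

/-!
# Project NG, package BCL: the second Borel-Cantelli lemma for functions of disjoint blocks
-/

set_option autoImplicit false

open MeasureTheory ProbabilityTheory Filter Topology

namespace Pool.Agent.U744.NG

open Pool.Agent.U180.NG

namespace BCLAux

/-- the event of a block -/
def ev {Ω : Type} (ξ : ℤ × ℤ → Ω → ℝ × ℝ) (S : Finset (ℤ × ℤ)) (g : ℤ × ℤ → ℝ × ℝ → ℝ) (a : ℝ) :
    Set Ω := {ω | a ≤ ∑ z ∈ S, g z (ξ z ω)}

/-- extension by zero of a function on a finite set -/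
noncomputable def ext (T : Finset (ℤ × ℤ)) (v : T → ℝ × ℝ) (z : ℤ × ℤ) : ℝ × ℝ :=
  if h : z ∈ T then v ⟨z, h⟩ else 0

theorem measurable_ext (T : Finset (ℤ × ℤ)) (z : ℤ × ℤ) : Measurable fun v => ext T v z := by
  unfold ext
  by_cases h : z ∈ T
  · simp only [h, dif_pos]
    exact measurable_pi_apply _
  · simp only [h, dif_neg, not_false_eq_true]
    exact measurable_const

theorem ext_eq {Ω : Type} (ξ : ℤ × ℤ → Ω → ℝ × ℝ) (T : Finset (ℤ × ℤ)) (z : ℤ × ℤ) (h : z ∈ T)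
    (ω : Ω) : ext T (fun i : T => ξ i ω) z = ξ z ω := by
  unfold ext
  rw [dif_pos h]

theorem ev_eq {Ω : Type} (ξ : ℤ × ℤ → Ω → ℝ × ℝ) (S T : Finset (ℤ × ℤ))
    (g : ℤ × ℤ → ℝ × ℝ → ℝ) (a : ℝ) (h : S ⊆ T) :
    ev ξ S g a = (fun ω (i : T) => ξ i ω) ⁻¹' {v | a ≤ ∑ z ∈ S, g z (ext T v z)} := by
  ext ω
  simp only [ev, Set.mem_setOf_eq, Set.mem_preimage]
  have : ∑ z ∈ S, g z (ext T (fun i : T => ξ i ω) z) = ∑ z ∈ S, g z (ξ z ω) :=
    Finset.sum_congr rfl fun z hz => by rw [ext_eq ξ T z (h hz)]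
  rw [this]

theorem measurableSet_ext (S T : Finset (ℤ × ℤ)) (g : ℤ × ℤ → ℝ × ℝ → ℝ)
    (hg : ∀ z, Measurable (g z)) (a : ℝ) :
    MeasurableSet {v : T → ℝ × ℝ | a ≤ ∑ z ∈ S, g z (ext T v z)} := by
  refine measurableSet_le measurable_const ?_
  exact Finset.measurable_fun_sum S fun z _ => (hg z).comp (measurable_ext T z)

theorem measurableSet_ev {Ω : Type} [MeasurableSpace Ω] (ξ : ℤ × ℤ → Ω → ℝ × ℝ)
    (hξ : ∀ z, Measurable (ξ z)) (S : Finset (ℤ × ℤ)) (g : ℤ × ℤ → ℝ × ℝ → ℝ)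
    (hg : ∀ z, Measurable (g z)) (a : ℝ) : MeasurableSet (ev ξ S g a) := by
  refine measurableSet_le measurable_const ?_
  exact Finset.measurable_fun_sum S fun z _ => (hg z).comp (hξ z)

theorem prod_formula {Ω : Type} [MeasurableSpace Ω] (P : Measure Ω) [IsProbabilityMeasure P]
    (ξ : ℤ × ℤ → Ω → ℝ × ℝ) (hξ : ∀ z, Measurable (ξ z)) (hi : iIndepFun ξ P)
    (S : ℕ → Finset (ℤ × ℤ)) (g : ℕ → ℤ × ℤ → ℝ × ℝ → ℝ) (a : ℕ → ℝ)
    (hg : ∀ i z, Measurable (g i z)) (hS : ∀ i j, i ≠ j → Disjoint (S i) (S j)) (F : Finset ℕ) :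
    P (⋂ i ∈ F, ev ξ (S i) (g i) (a i)) = ∏ i ∈ F, P (ev ξ (S i) (g i) (a i)) := by
  classical
  induction F using Finset.induction_on with
  | empty => simp
  | insert i F hiF ih =>
    rw [Finset.prod_insert hiF, ← ih, Finset.set_biInter_insert]
    have hd : Disjoint (S i) (F.biUnion S) := by
      rw [Finset.disjoint_biUnion_right]
      exact fun j hj => hS i j fun h => hiF (h ▸ hj)
    have hind := iIndepFun.indepFun_finset (S i) (F.biUnion S) hd hi hξ
    have e2 : (⋂ j ∈ F, ev ξ (S j) (g j) (a j)) =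
        (fun ω (z : F.biUnion S) => ξ z ω) ⁻¹'
          (⋂ j ∈ F, {v | a j ≤ ∑ z ∈ S j, g j z (ext (F.biUnion S) v z)}) := by
      rw [Set.preimage_iInter₂]
      refine Set.iInter₂_congr fun j hj => ?_
      exact ev_eq ξ (S j) (F.biUnion S) (g j) (a j) (Finset.subset_biUnion_of_mem S hj)
    rw [e2, ev_eq ξ (S i) (S i) (g i) (a i) (Finset.Subset.refl _)]
    refine hind.measure_inter_preimage_eq_mul _ _ ?_ ?_
    · exact measurableSet_ext _ _ _ (hg i) _
    · exact Finset.measurableSet_biInter F fun j _ => measurableSet_ext _ _ _ (hg j) _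

theorem not_summable_inv_sqrt : ¬ Summable fun i : ℕ => 1 / Real.sqrt i := by
  have h := (Real.summable_nat_rpow_inv (p := 1 / 2)).not.2 (by norm_num)
  intro hs
  refine h (hs.congr fun i => ?_)
  rw [Real.sqrt_eq_rpow, one_div]

end BCLAux

open BCLAux

/-- Package BCL. -/
theorem t_BCL : S_BCL := by
  intro Ω _ P hP ξ hξ hi S g a hg hS hlow
  have hm : ∀ i, MeasurableSet (ev ξ (S i) (g i) (a i)) := fun i =>
    measurableSet_ev ξ hξ (S i) (g i) (hg i) (a i)
  have hs : iIndepSet (fun i => ev ξ (S i) (g i) (a i)) P := by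
    rw [iIndepSet_iff_meas_biInter hm]
    exact fun F => prod_formula P ξ hξ hi S g a hg hS F
  have hsum : (∑' i, P (ev ξ (S i) (g i) (a i))) = ⊤ := by
    by_contra hne
    have h1 := ENNReal.summable_toReal hne
    obtain ⟨i₀, h0⟩ := hlow
    have h2 : Summable fun i : ℕ => P.real (ev ξ (S i) (g i) (a i)) := h1
    have h3 : Summable fun i : ℕ => 1 / Real.sqrt ((i + i₀ : ℕ) : ℝ) := by
      refine Summable.of_nonneg_of_le (fun i => by positivity) (fun i => ?_)
        ((summable_nat_add_iff i₀).2 h2)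
      exact h0 (i + i₀) (by omega)
    exact not_summable_inv_sqrt ((summable_nat_add_iff i₀).1 h3)
  have hl := measure_limsup_eq_one hm hs hsum
  have hl2 : P (limsup (fun i => ev ξ (S i) (g i) (a i)) atTop)ᶜ = 0 := by
    rw [prob_compl_eq_zero_iff₀]
    · exact hl
    · exact (MeasurableSet.measurableSet_limsup hm).nullMeasurableSet
  rw [ae_iff]
  refine measure_mono_null (fun ω hω => ?_) hl2
  simp only [Set.mem_setOf_eq] at hω
  intro hmem
  rw [mem_limsup_iff_frequently_mem] at hmem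
  exact hω hmem

end Pool.Agent.U744.NG
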